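import Pool.Agent.H5.OR.Targets

/-!
MP_e1fd52_al, rows AG and AI: a pushout is generated by the two groups; the two groups embed.
-/

namespace Pool.Agent.H16.OR

open ORg

/-- AG: a pushout is generated by the two groups -/
theorem pf_AG : T_AG := by
  intro H A B G _ _ _ _ f g a b h
  rw [eq_top_iff]
  intro x _
  have hA : ∀ y : A, a y ∈ a.range ⊔ b.range := fun y => Subgroup.mem_sup_left ⟨y, rfl⟩
  have hB : ∀ y : B, b y ∈ a.range ⊔ b.range := fun y => Subgroup.mem_sup_right ⟨y, rfl⟩
  obtain ⟨k, hk1, hk2⟩ := h.lift (a.range ⊔ b.range : Subgroup G)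
    (a.codRestrict _ hA) (b.codRestrict _ hB) (fun y => Subtype.ext (h.comm y))
  have h1 : ((a.range ⊔ b.range : Subgroup G).subtype.comp k) = MonoidHom.id G := by
    refine h.uniq G _ _ (fun y => ?_) (fun y => ?_)
    · rw [MonoidHom.comp_apply, hk1]
      rfl
    · rw [MonoidHom.comp_apply, hk2]
      rfl
  have h2 : ((k x : (a.range ⊔ b.range : Subgroup G)) : G) = x := by
    have := DFunLike.congr_fun h1 x
    exact this
  rw [← h2]
  exact (k x).2

/-- the family of the two groups -/
def fam (A B : Type) : Bool → Type := fun i => Bool.rec B A i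

instance famGroup (A B : Type) [Group A] [Group B] (i : Bool) : Group (fam A B i) :=
  match i with
  | true => (inferInstance : Group A)
  | false => (inferInstance : Group B)

/-- the family of the two maps -/
def fmap {H A B : Type} [Group H] [Group A] [Group B] (f : H →* A) (g : H →* B) :
    ∀ i : Bool, H →* fam A B i
  | true => f
  | false => g

/-- AI: the two groups embed in a pushout along injective homomorphisms -/
theorem pf_AI : T_AI := by
  intro H A B G _ _ _ _ f g a b h hf hg
  have hinj : ∀ i, Function.Injective (fmap f g i) := by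
    rintro (_ | _)
    · exact hg
    · exact hf
  obtain ⟨k, hk1, hk2⟩ := h.lift (Monoid.PushoutI (fmap f g))
    (Monoid.PushoutI.of (φ := fmap f g) true) (Monoid.PushoutI.of (φ := fmap f g) false)
    (fun y => by
      have h1 := Monoid.PushoutI.of_apply_eq_base (fmap f g) true y
      have h2 := Monoid.PushoutI.of_apply_eq_base (fmap f g) false y
      exact h1.trans h2.symm)
  constructor
  · intro x y hxy
    have h3 := (hk1 x).symm.trans ((congrArg k hxy).trans (hk1 y))
    exact Monoid.PushoutI.of_injective hinj true h3
  · intro x y hxy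
    have h3 := (hk2 x).symm.trans ((congrArg k hxy).trans (hk2 y))
    exact Monoid.PushoutI.of_injective hinj false h3

end Pool.Agent.H16.OR
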