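import Pool.Agent.H5.OR.Targets

/-!
MP_e1fd52_al, row PA: the amalgamated product as a pushout.
-/

namespace Pool.Agent.H16.OR

open ORg

/-- PA: the amalgamated product as a pushout -/
theorem pf_PA : T_PA := by
  intro X P _ w a
  refine ⟨(QuotientGroup.mk' _).comp Monoid.Coprod.inl,
    (QuotientGroup.mk' _).comp Monoid.Coprod.inr, ?_, ?_, ?_⟩
  · intro h
    rw [zpowersHom_apply, zpowersHom_apply, map_zpow, map_zpow]
    have h1 : ((QuotientGroup.mk' (Subgroup.normalClosure
        ({Monoid.Coprod.inl w * (Monoid.Coprod.inr a)⁻¹} :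
          Set (Monoid.Coprod (FreeGroup X) P)))).comp Monoid.Coprod.inl) w =
        ((QuotientGroup.mk' (Subgroup.normalClosure
        ({Monoid.Coprod.inl w * (Monoid.Coprod.inr a)⁻¹} :
          Set (Monoid.Coprod (FreeGroup X) P)))).comp Monoid.Coprod.inr) a := by
      rw [MonoidHom.comp_apply, MonoidHom.comp_apply, QuotientGroup.mk'_apply,
        QuotientGroup.mk'_apply, ← mul_inv_eq_one, ← QuotientGroup.mk_inv, ← QuotientGroup.mk_mul,
        QuotientGroup.eq_one_iff]
      exact Subgroup.subset_normalClosure rfl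
    rw [h1]
  · intro K _ u v huv
    have h1 : u w = v a := by
      have := huv (Multiplicative.ofAdd 1)
      rwa [zpowersHom_apply, zpowersHom_apply, toAdd_ofAdd, zpow_one, zpow_one] at this
    refine ⟨QuotientGroup.lift _ (Monoid.Coprod.lift u v) ?_, fun x => ?_, fun x => ?_⟩
    · intro x hx
      have h2 : Subgroup.normalClosure ({Monoid.Coprod.inl w * (Monoid.Coprod.inr a)⁻¹} :
          Set (Monoid.Coprod (FreeGroup X) P)) ≤ (Monoid.Coprod.lift u v).ker := by
        refine Subgroup.normalClosure_le_normal ?_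
        rw [Set.singleton_subset_iff]
        change _ ∈ (Monoid.Coprod.lift u v).ker
        rw [MonoidHom.mem_ker, map_mul, map_inv, Monoid.Coprod.lift_apply_inl,
          Monoid.Coprod.lift_apply_inr, h1, mul_inv_cancel]
      exact h2 hx
    · rw [MonoidHom.comp_apply, QuotientGroup.mk'_apply, QuotientGroup.lift_mk,
        Monoid.Coprod.lift_apply_inl]
    · rw [MonoidHom.comp_apply, QuotientGroup.mk'_apply, QuotientGroup.lift_mk,
        Monoid.Coprod.lift_apply_inr]
  · intro K _ k l h1 h2
    refine QuotientGroup.monoidHom_ext _ (Monoid.Coprod.hom_ext ?_ ?_)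
    · ext x
      exact h1 (FreeGroup.of x)
    · ext x
      exact h2 x

end Pool.Agent.H16.OR
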