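import Pool.Agent.H5.OR.Targets

/-!
MP_e1fd52_al, rows AF, NE and TE: a trivial edge group; groups of the class KK and free groups;
an extremal edge of a finite set of edges.
-/

namespace Pool.Agent.H16.OR

open ORg

/-- AF: a trivial edge group -/
theorem pf_AF (TA : T_TA) (TN : T_TN) : T_AF := by
  intro G _ A B S r b hI hAB g hg u v hu hv
  by_contra huv
  obtain ⟨a, hua, hva⟩ := (TA G S).2.2.2.2.2.2.2.2.1 u v huv
  have h1 := (TA G S).2.2.2.2.1 u a hua
  obtain ⟨h2, h3⟩ := (TN G S).2.2 g u v u a hu hv hua h1.1 hva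
  have key : ∀ p q : S.V, S.red p → S.T.Adj p q → g • p = p → g • q = q → False := by
    intro p q hp hpq hgp hgq
    obtain ⟨h, rfl, rfl⟩ := hI.edge p q hp hpq
    have h4 : (h⁻¹ * g * h) • r = r := by
      rw [mul_smul, mul_smul, hgp, inv_smul_smul]
    have h5 : (h⁻¹ * g * h) • b = b := by
      rw [mul_smul, mul_smul, hgq, inv_smul_smul]
    have h6 : h⁻¹ * g * h ∈ A ⊓ B := ⟨(hI.stA _).1 h4, (hI.stB _).1 h5⟩
    rw [hAB, Subgroup.mem_bot] at h6
    apply hg
    calc g = h * (h⁻¹ * g * h) * h⁻¹ := by group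
      _ = 1 := by rw [h6, mul_one, mul_inv_cancel]
  by_cases hr : S.red u
  · exact key u a hr hua h2 h3
  · have hra : S.red a := by
      by_contra h7
      exact hr ((S.red_adj u a hua).2 h7)
    exact key a u hra hua.symm h3 h2

/-- NE: a group of the class `KK` does not embed in a free group -/
theorem pf_NE (CT : T_CT) (TC : T_TC) : T_NE := by
  intro P X _ f hK hf
  obtain ⟨S, hS⟩ := CT X
  obtain ⟨c, b, hc, hcomm, hb⟩ := hK
  have hfree : ∀ (g : P) (v : (S.comap f).V), g • v = v → g = 1 := by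
    intro g v hv
    have h1 : (f g • (show S.V from v) : S.V) = v := hv
    exact (map_eq_one_iff f hf).1 (hS (f g) v h1)
  have hAC : (S.comap f).AC := by
    intro g hg u v _ _ hu _
    exact absurd (hfree g u hu) hg
  have hc1 : ∀ v : (S.comap f).V, c • v ≠ v := by
    intro v hv
    exact hc 1 one_ne_zero (by rw [zpow_one]; exact hfree c v hv)
  obtain ⟨m, n, hm, hn, h⟩ := hcomm b
  obtain ⟨k, hk, hkc⟩ := TC P (S.comap f) c b m n hAC hc1 hm hn h
  exact hb k hk hkc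

/-- TE: an extremal edge of a finite set of edges -/
theorem pf_TE (TA : T_TA) (TN : T_TN) : T_TE := by
  intro G _ S E hE hne hadj
  obtain ⟨p0, hp0⟩ := hne
  obtain ⟨x0, hx0⟩ : ∃ x0, x0 = p0.1 := ⟨_, rfl⟩
  obtain ⟨p, hpE, hmax⟩ := Set.exists_max_image E
    (fun p => max (S.T.dist x0 p.1) (S.T.dist x0 p.2)) hE ⟨p0, hp0⟩
  obtain ⟨hpa, hpr⟩ := hadj p hpE
  have hsplit := (TA G S).2.2.2.1
  have hself := (TA G S).2.2.2.2.1
  have hd8 := (TA G S).2.2.2.2.2.2.2.1
  have key : ∀ n f : S.V, S.T.Adj n f → ((n = p.1 ∧ f = p.2) ∨ (n = p.2 ∧ f = p.1)) →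
      x0 ∈ S.hs n f → ∀ q ∈ E, q ≠ p → q.1 ∈ S.hs n f := by
    intro n f hnf hcase hx q hq hqp
    obtain ⟨hqa, hqr⟩ := hadj q hq
    have hne1 : ¬ (q.1 = n ∧ q.2 = f) := by
      rintro ⟨h1, h2⟩
      rcases hcase with ⟨h3, h4⟩ | ⟨h3, h4⟩
      · exact hqp (Prod.ext (h1.trans h3) (h2.trans h4))
      · have h5 : ¬ S.red p.2 := (S.red_adj _ _ hpa).1 hpr
        exact h5 (by rw [← h3, ← h1]; exact hqr)
    have hne2 : ¬ (q.1 = f ∧ q.2 = n) := by
      rintro ⟨h1, h2⟩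
      rcases hcase with ⟨h3, h4⟩ | ⟨h3, h4⟩
      · have h5 : ¬ S.red p.2 := (S.red_adj _ _ hpa).1 hpr
        exact h5 (by rw [← h4, ← h1]; exact hqr)
      · exact hqp (Prod.ext (h1.trans h4) (h2.trans h3))
    rcases (TN G S).1 n f q.1 q.2 hnf hqa hne1 hne2 with h | h
    · exact h.1
    · exfalso
      have h1 := hd8 n f hnf x0 q.1 hx h.1
      have h2 := hd8 n f hnf x0 q.2 hx h.2
      have h3 := hmax q hq
      have hx1 := (TA G S).2.2.2.2.2.1 n f hnf x0 hx
      have h5 : max (S.T.dist x0 p.1) (S.T.dist x0 p.2) = S.T.dist x0 n + 1 := by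
        rcases hcase with ⟨h6, h7⟩ | ⟨h6, h7⟩
        · rw [← h6, ← h7, hx1]
          exact max_eq_right (Nat.le_succ _)
        · rw [← h6, ← h7, hx1]
          exact max_eq_left (Nat.le_succ _)
      rw [h5] at h3
      have h8 : S.T.dist x0 q.1 ≤ S.T.dist x0 n + 1 := le_trans (le_max_left _ _) h3
      have h9 : S.T.dist x0 q.2 ≤ S.T.dist x0 n + 1 := le_trans (le_max_right _ _) h3
      have h10 : S.T.dist f q.1 = 0 := by omega
      have h11 : S.T.dist f q.2 = 0 := by omega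
      have h12 : f = q.1 := (S.tree.connected.dist_eq_zero_iff).1 h10
      have h13 : f = q.2 := (S.tree.connected.dist_eq_zero_iff).1 h11
      exact hqa.ne (h12.symm.trans h13)
  refine ⟨p, hpE, ?_⟩
  rcases (hsplit p.1 p.2 hpa x0).1 with h | h
  · exact Or.inl (key p.1 p.2 hpa (Or.inl ⟨rfl, rfl⟩) h)
  · exact Or.inr (key p.2 p.1 hpa.symm (Or.inr ⟨rfl, rfl⟩) h)

end Pool.Agent.H16.OR
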